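import Mathlib

/-!
# Components of vertex-deleted subgraphs (MP_12e671_al, helper629)

Basic facts on the components of `G - T`, cut sets, and the completion of a graph at a vertex.
-/

set_option autoImplicit false

namespace Pool.Agent.H629.AccG

variable {V : Type*} {G : SimpleGraph V} {T T' : Set V} {x y z u v : V} {K K' : Set V}

/-- the vertices reachable from `x` by walks whose later vertices avoid `T` -/
def cl (G : SimpleGraph V) (T : Set V) (x : V) : Set V :=
  {y | Relation.ReflTransGen (fun u v => G.Adj u v ∧ v ∉ T) x y}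

theorem self_mem (G : SimpleGraph V) (T : Set V) (x : V) : x ∈ cl G T x :=
  Relation.ReflTransGen.refl

theorem cl_step (h : y ∈ cl G T x) (ha : G.Adj y z) (hz : z ∉ T) : z ∈ cl G T x :=
  Relation.ReflTransGen.tail h ⟨ha, hz⟩

theorem cl_sub (hK : ∀ u ∈ K, ∀ v, G.Adj u v → v ∉ T → v ∈ K) (hx : x ∈ K) :
    cl G T x ⊆ K := by
  intro y hy
  induction hy with
  | refl => exact hx
  | tail _ h ih => exact hK _ ih _ h.1 h.2

theorem cl_notMem (hx : x ∉ T) (hy : y ∈ cl G T x) : y ∉ T :=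
  cl_sub (K := {z | z ∉ T}) (fun _ _ _ _ hv => hv) hx hy

theorem cl_trans (hy : y ∈ cl G T x) : cl G T y ⊆ cl G T x :=
  cl_sub (fun _ hu _ ha hv => cl_step hu ha hv) hy

theorem cl_eq (hx : x ∉ T) (hy : y ∈ cl G T x) : cl G T y = cl G T x := by
  have key : x ∈ cl G T y := by
    have : cl G T x ⊆ {z | z ∉ T ∧ x ∈ cl G T z} := by
      refine cl_sub ?_ ⟨hx, self_mem G T x⟩
      rintro u ⟨huT, hu⟩ v ha hv
      refine ⟨hv, ?_⟩
      exact cl_trans (cl_step (self_mem G T v) ha.symm huT) hu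
    exact (this hy).2
  exact Set.Subset.antisymm (cl_trans hy) (cl_trans key)

/-- the vertex sets of the components of `G - T` -/
def comps (G : SimpleGraph V) (T : Set V) : Set (Set V) := {K | ∃ x, x ∉ T ∧ K = cl G T x}

theorem cl_mem_comps (hx : x ∉ T) : cl G T x ∈ comps G T := ⟨x, hx, rfl⟩

theorem comps_eq_cl (hK : K ∈ comps G T) (hx : x ∈ K) : x ∉ T ∧ K = cl G T x := by
  obtain ⟨y, hy, rfl⟩ := hK
  exact ⟨cl_notMem hy hx, (cl_eq hy hx).symm⟩

theorem comps_notMem (hK : K ∈ comps G T) (hx : x ∈ K) : x ∉ T := (comps_eq_cl hK hx).1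

theorem comps_eq (hK : K ∈ comps G T) (hK' : K' ∈ comps G T) (hx : x ∈ K) (hx' : x ∈ K') :
    K = K' := by
  rw [(comps_eq_cl hK hx).2, (comps_eq_cl hK' hx').2]

theorem comps_closed (hK : K ∈ comps G T) (hu : u ∈ K) (ha : G.Adj u v) (hv : v ∉ T) :
    v ∈ K := by
  obtain ⟨y, hy, rfl⟩ := hK
  exact cl_step hu ha hv

theorem comps_bd (hK : K ∈ comps G T) (hu : u ∈ K) (ha : G.Adj u v) (hv : v ∉ K) : v ∈ T := by
  by_contra h
  exact hv (comps_closed hK hu ha h)

theorem comps_nonempty (hK : K ∈ comps G T) : K.Nonempty := by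
  obtain ⟨y, hy, rfl⟩ := hK
  exact ⟨y, self_mem G T y⟩

theorem comps_connected (hK : K ∈ comps G T) (hx : x ∈ K) (hd : ∀ y ∈ K, y ∉ T') :
    K ⊆ cl G T' x := by
  have h1 := (comps_eq_cl hK hx).2
  have h2 : cl G T x ⊆ {y | y ∈ K ∧ y ∈ cl G T' x} := by
    refine cl_sub ?_ ⟨hx, self_mem G T' x⟩
    rintro u ⟨hu1, hu2⟩ v ha hv
    have h3 := comps_closed hK hu1 ha hv
    exact ⟨h3, cl_step hu2 ha (hd v h3)⟩
  intro y hy
  rw [h1] at hy
  exact (h2 hy).2

theorem comps_transfer (hK : K ∈ comps G T) (hd : ∀ y ∈ K, y ∉ T')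
    (hb : ∀ u ∈ K, ∀ v, G.Adj u v → v ∉ K → v ∈ T') : K ∈ comps G T' := by
  obtain ⟨x, hx⟩ := comps_nonempty hK
  refine ⟨x, hd x hx, Set.Subset.antisymm (comps_connected hK hx hd) (cl_sub ?_ hx)⟩
  intro u hu v ha hv
  by_contra h
  exact hv (hb u hu v ha h)

/-- the number of components of `G - T` -/
noncomputable def cc (G : SimpleGraph V) (T : Set V) : ℕ := (comps G T).ncard

/-- the number of components of `G - T` adjacent to `i` -/
noncomputable def deg (G : SimpleGraph V) (T : Set V) (i : V) : ℕ :=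
  {K | K ∈ comps G T ∧ ∃ y ∈ K, G.Adj i y}.ncard

theorem comps_erase {i : V} (hi : i ∈ T) : comps G (T \ {i}) =
    insert (cl G (T \ {i}) i) {K | K ∈ comps G T ∧ ¬ ∃ y ∈ K, G.Adj i y} := by
  ext K
  constructor
  · intro hK
    by_cases hiK : i ∈ K
    · exact Or.inl (comps_eq_cl hK hiK).2
    · refine Or.inr ⟨comps_transfer hK ?_ ?_, ?_⟩
      · intro y hy hyT
        exact comps_notMem hK hy ⟨hyT, fun h => hiK (by rw [← Set.mem_singleton_iff.1 h]; exact hy)⟩
      · intro u hu v ha hv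
        exact (comps_bd hK hu ha hv).1
      · rintro ⟨y, hy, ha⟩
        exact hiK (comps_closed hK hy ha.symm (fun h => h.2 rfl))
  · rintro (rfl | ⟨hK, hn⟩)
    · exact cl_mem_comps fun h => h.2 rfl
    · refine comps_transfer hK ?_ ?_
      · intro y hy hyT
        exact comps_notMem hK hy hyT.1
      · intro u hu v ha hv
        refine ⟨comps_bd hK hu ha hv, ?_⟩
        intro h
        rw [Set.mem_singleton_iff] at h
        subst h
        exact hn ⟨u, hu, ha.symm⟩

theorem cc_erase [Finite V] {i : V} (hi : i ∈ T) :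
    cc G (T \ {i}) + deg G T i = cc G T + 1 := by
  have h1 : cl G (T \ {i}) i ∉ {K | K ∈ comps G T ∧ ¬ ∃ y ∈ K, G.Adj i y} := by
    rintro ⟨h, -⟩
    exact comps_notMem h (self_mem G _ i) hi
  have h2 : comps G T = {K | K ∈ comps G T ∧ ¬ ∃ y ∈ K, G.Adj i y} ∪
      {K | K ∈ comps G T ∧ ∃ y ∈ K, G.Adj i y} := by
    ext K
    constructor
    · intro h
      by_cases h' : ∃ y ∈ K, G.Adj i y
      · exact Or.inr ⟨h, h'⟩
      · exact Or.inl ⟨h, h'⟩
    · rintro (h | h)
      · exact h.1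
      · exact h.1
  have h3 : Disjoint {K | K ∈ comps G T ∧ ¬ ∃ y ∈ K, G.Adj i y}
      {K | K ∈ comps G T ∧ ∃ y ∈ K, G.Adj i y} := by
    rw [Set.disjoint_left]
    rintro K ⟨-, h⟩ ⟨-, h'⟩
    exact h h'
  have h4 : cc G T = {K | K ∈ comps G T ∧ ¬ ∃ y ∈ K, G.Adj i y}.ncard + deg G T i := by
    unfold cc deg
    conv_lhs => rw [h2]
    exact Set.ncard_union_eq h3
  unfold cc at h4 ⊢
  rw [comps_erase hi, Set.ncard_insert_of_notMem h1]
  omega

/-- cut sets -/
def IsCut (G : SimpleGraph V) (T : Set V) : Prop := ∀ i ∈ T, cc G (T \ {i}) < cc G T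

theorem isCut_of_deg [Finite V] (h : ∀ i ∈ T, 2 ≤ deg G T i) : IsCut G T := by
  intro i hi
  have h1 := cc_erase (G := G) hi
  have h2 := h i hi
  omega

/-- accessible graphs -/
structure Acc (G : SimpleGraph V) : Prop where
  unm : ∀ T, IsCut G T → cc G T = T.ncard + cc G ∅
  acc : ∀ T, IsCut G T → T.Nonempty → ∃ t ∈ T, IsCut G (T \ {t})

theorem Acc.bound [Finite V] (h : Acc G) (T : Set V) : cc G T ≤ T.ncard + cc G ∅ := by
  induction hn : T.ncard generalizing T with
  | zero =>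
      have : T = ∅ := by rwa [Set.ncard_eq_zero] at hn
      rw [this]
      omega
  | succ n ih =>
      by_cases hT : IsCut G T
      · have := h.unm T hT
        omega
      · unfold IsCut at hT
        push Not at hT
        obtain ⟨i, hi, hle⟩ := hT
        have h1 := Set.ncard_sdiff_singleton_add_one hi
        have h2 := ih (T \ {i}) (by omega)
        omega

theorem Acc.deg_two [Finite V] (h : Acc G) (hT : IsCut G T) (hne : T.Nonempty) :
    ∃ t ∈ T, deg G T t = 2 := by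
  obtain ⟨t, ht, ht'⟩ := h.acc T hT hne
  refine ⟨t, ht, ?_⟩
  have h1 := cc_erase (G := G) ht
  have h2 := h.unm T hT
  have h3 := h.unm _ ht'
  have h4 := Set.ncard_sdiff_singleton_add_one ht
  omega

/-! ### Completion at a vertex -/

/-- the graph obtained from `G` by making the neighbours of `v` pairwise adjacent -/
def Cp (G : SimpleGraph V) (v : V) : SimpleGraph V where
  Adj x y := G.Adj x y ∨ (x ≠ y ∧ G.Adj v x ∧ G.Adj v y)
  symm := ⟨by
    rintro x y (h | ⟨h1, h2, h3⟩)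
    · exact Or.inl h.symm
    · exact Or.inr ⟨h1.symm, h3, h2⟩⟩
  loopless := ⟨by
    rintro x (h | ⟨h1, -, -⟩)
    · exact h.ne rfl
    · exact h1 rfl⟩

theorem le_Cp (G : SimpleGraph V) (v : V) : G ≤ Cp G v := fun _ _ h => Or.inl h

theorem Cp_adj_self (w : V) : (Cp G w).Adj w x ↔ G.Adj w x := by
  constructor
  · rintro (h | ⟨-, h, -⟩)
    · exact h
    · exact absurd rfl h.ne
  · exact Or.inl

theorem cl_Cp {w : V} (hw : w ∉ T) : cl (Cp G w) T x = cl G T x := by
  refine Set.Subset.antisymm (cl_sub ?_ (self_mem G T x)) (cl_sub ?_ (self_mem _ T x))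
  · rintro u hu v (ha | ⟨-, h1, h2⟩) hv
    · exact cl_step hu ha hv
    · exact cl_step (cl_step hu h1.symm hw) h2 hv
  · intro u hu v ha hv
    exact cl_step hu (Or.inl ha) hv

theorem comps_Cp {w : V} (hw : w ∉ T) : comps (Cp G w) T = comps G T := by
  ext K
  constructor
  · rintro ⟨x, hx, rfl⟩
    exact ⟨x, hx, cl_Cp hw⟩
  · rintro ⟨x, hx, rfl⟩
    exact ⟨x, hx, (cl_Cp hw).symm⟩

theorem cc_Cp {w : V} (hw : w ∉ T) : cc (Cp G w) T = cc G T := by
  unfold cc
  rw [comps_Cp hw]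

theorem isCut_Cp {w : V} (hw : w ∉ T) : IsCut (Cp G w) T ↔ IsCut G T := by
  unfold IsCut
  rw [cc_Cp hw]
  constructor
  · intro h i hi
    have := h i hi
    rwa [cc_Cp (fun h => hw h.1)] at this
  · intro h i hi
    have := h i hi
    rwa [cc_Cp (fun h => hw h.1)]

theorem notMem_of_isCut_Cp [Finite V] {w : V} (h : IsCut (Cp G w) T) : w ∉ T := by
  intro hw
  have h1 := h w hw
  have h2 := cc_erase (G := Cp G w) hw
  have h3 : deg (Cp G w) T w ≤ 1 := by
    unfold deg
    rw [Set.ncard_le_one_iff]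
    rintro K K' ⟨hK, y, hy, ha⟩ ⟨hK', y', hy', ha'⟩
    rw [Cp_adj_self] at ha ha'
    by_cases hyy : y = y'
    · subst hyy
      exact comps_eq hK hK' hy hy'
    · have : (Cp G w).Adj y y' := Or.inr ⟨hyy, ha, ha'⟩
      exact comps_eq hK hK' (comps_closed hK hy this (comps_notMem hK' hy')) hy'
  omega

theorem Acc.completion [Finite V] (h : Acc G) (w : V) : Acc (Cp G w) where
  unm := by
    intro T hT
    have hw := notMem_of_isCut_Cp hT
    rw [cc_Cp hw, cc_Cp (Set.notMem_empty w)]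
    exact h.unm T ((isCut_Cp hw).1 hT)
  acc := by
    intro T hT hne
    have hw := notMem_of_isCut_Cp hT
    obtain ⟨t, ht, ht'⟩ := h.acc T ((isCut_Cp hw).1 hT) hne
    exact ⟨t, ht, (isCut_Cp fun h => hw h.1).2 ht'⟩

/-! ### Minimal separators -/

/-- `T` is the boundary of the component `K` of `x` in `G` without the closed neighbourhood of
`y` -/
structure Sep (G : SimpleGraph V) (x y : V) (K T : Set V) : Prop where
  hx : x ∈ K
  hK : K ∈ comps G T
  adjK : ∀ v ∈ T, ∃ u ∈ K, G.Adj v u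
  adjy : ∀ v ∈ T, G.Adj y v
  far : ∀ u ∈ K, u ≠ y ∧ ¬ G.Adj y u
  cut : IsCut G T

theorem Sep.yT (h : Sep G x y K T) : y ∉ T := fun hy => (h.adjy y hy).ne rfl

theorem Sep.yK (h : Sep G x y K T) : y ∉ K := fun hy => (h.far y hy).1 rfl

theorem Sep.mem_or (h : Sep G x y K T) (hu : u ∈ K) (ha : G.Adj u v) : v ∈ K ∨ v ∈ T := by
  by_cases hv : v ∈ K
  · exact Or.inl hv
  · exact Or.inr (comps_bd h.hK hu ha hv)

theorem exists_sep [Finite V] (hne : x ≠ y) (hadj : ¬ G.Adj y x) :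
    ∃ K T, Sep G x y K T := by
  let N : Set V := {z | z = y ∨ G.Adj y z}
  have hxN : x ∉ N := by
    rintro (h | h)
    · exact hne h
    · exact hadj h
  let K := cl G N x
  let T : Set V := {v | v ∉ K ∧ ∃ u ∈ K, G.Adj v u}
  have hKN : K ∈ comps G N := cl_mem_comps hxN
  have hfar : ∀ u ∈ K, u ≠ y ∧ ¬ G.Adj y u := by
    intro u hu
    have := comps_notMem hKN hu
    exact ⟨fun h => this (Or.inl h), fun h => this (Or.inr h)⟩
  have hKT : K ∈ comps G T := by
    refine comps_transfer hKN (fun y hy h => h.1 hy) ?_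
    intro u hu v ha hv
    exact ⟨hv, u, hu, ha.symm⟩
  have hTy : ∀ v ∈ T, G.Adj y v := by
    rintro v ⟨hv, u, hu, ha⟩
    rcases comps_bd hKN hu ha.symm hv with h | h
    · subst h
      exact absurd ha (hfar u hu).2
    · exact h
  have hyT : y ∉ T := fun h => (hTy y h).ne rfl
  refine ⟨K, T, self_mem G N x, hKT, fun v hv => hv.2, hTy, hfar, isCut_of_deg ?_⟩
  intro v hv
  have h1 : ({K, cl G T y} : Set (Set V)) ⊆ {K | K ∈ comps G T ∧ ∃ y ∈ K, G.Adj v y} := by
    rintro L (rfl | hL)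
    · exact ⟨hKT, hv.2⟩
    · rw [Set.mem_singleton_iff] at hL
      subst hL
      exact ⟨cl_mem_comps hyT, y, self_mem G T y, (hTy v hv).symm⟩
  have h2 : K ≠ cl G T y := by
    intro h
    have : y ∈ K := by
      rw [h]
      exact self_mem G T y
    exact (hfar y this).1 rfl
  calc 2 = ({K, cl G T y} : Set (Set V)).ncard := (Set.ncard_pair h2).symm
    _ ≤ _ := Set.ncard_le_ncard h1 (Set.toFinite _)

end Pool.Agent.H629.AccG
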