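import Pool.Agent.H629.AccMain

/-!
# Accessible graphs do not contain the configuration (MP_12e671_al, helper629)
-/

set_option autoImplicit false

namespace Pool.Agent.H629.AccG

variable {V : Type*} {G : SimpleGraph V}

section

variable {d s α : V} {R T1 Q T2 D DJ Θ : Set V}

/-- the special element `α` of the separator `T1` has a neighbour in `D \ DJ` -/
theorem Side.reach [Finite V] (S : Side G d s R T1 α)
    (h21 : ∀ x ∈ T2, x ∉ T1 → x ∈ R) (hQ : Q ∈ comps G T2) (hαQ : α ∈ Q)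
    (huniq : ∀ x, x ∈ R → x ∈ Q → x ∈ D) (hDR : D ⊆ R) (hDJ : DJ ⊆ D)
    (hΘ : ∀ x, x ∈ Θ ↔ x ∈ T1 ∨ x ∈ T2 ∨ x ∈ DJ) (hdeg : 2 ≤ AccG.deg G Θ α) :
    ∃ x, x ∈ R ∧ x ∈ Q ∧ x ∈ D ∧ x ∉ DJ ∧ x ∉ T1 ∧ x ∉ T2 ∧ G.Adj α x := by
  -- a component of `G - Θ` adjacent to `α` without `s`
  obtain ⟨E, hE, hsE, x, hxE, hαx⟩ : ∃ E ∈ comps G Θ, s ∉ E ∧ ∃ x ∈ E, G.Adj α x := by
    have h1 : 1 < {K | K ∈ comps G Θ ∧ ∃ y ∈ K, G.Adj α y}.ncard := hdeg
    rw [Set.one_lt_ncard_iff (Set.toFinite _)] at h1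
    obtain ⟨E1, E2, ⟨hE1, y1, hy1, ha1⟩, ⟨hE2, y2, hy2, ha2⟩, hne⟩ := h1
    by_cases hs : s ∈ E1
    · exact ⟨E2, hE2, fun h => hne (comps_eq hE1 hE2 hs h), y2, hy2, ha2⟩
    · exact ⟨E1, hE1, hs, y1, hy1, ha1⟩
  have hxΘ := comps_notMem hE hxE
  rw [hΘ] at hxΘ
  push Not at hxΘ
  obtain ⟨hx1, hx2, hx3⟩ := hxΘ
  have hxR : x ∈ R := by
    by_contra hxR
    -- then `x` is in the component of `s`
    have h3 : x ∈ cl G T1 s := by
      by_contra hxs
      have h3 : 3 ≤ AccG.deg G T1 α := by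
        refine three_le_deg (cl_mem_comps hx1) S.sep.hK (cl_mem_comps S.sep.yT)
          ⟨x, self_mem G T1 x, hαx⟩ (S.sep.adjK α S.mem)
          ⟨s, self_mem G T1 s, (S.sep.adjy α S.mem).symm⟩ ?_ ?_ ?_
        · intro h
          exact hxR (by rw [← h]; exact self_mem G T1 x)
        · intro h
          exact hxs (by rw [← h]; exact self_mem G T1 x)
        · intro h
          exact S.sep.yK (by rw [h]; exact self_mem G T1 s)
      have := S.deg
      omega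
    have h4 : cl G T1 s ∈ comps G T1 := cl_mem_comps S.sep.yT
    have h5 : ∀ y ∈ cl G T1 s, y ∉ R := fun y hy hyR =>
      hxR (by rw [comps_eq S.sep.hK h4 hyR hy]; exact h3)
    have h6 : cl G T1 s ⊆ cl G Θ s := by
      refine comps_connected h4 (self_mem G T1 s) ?_
      intro y hy hyΘ
      rw [hΘ] at hyΘ
      rcases hyΘ with h | h | h
      · exact comps_notMem h4 hy h
      · exact h5 y hy (h21 y h (comps_notMem h4 hy))
      · exact h5 y hy (hDR (hDJ h))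
    have hsΘ : s ∉ Θ := by
      intro h
      rw [hΘ] at h
      rcases h with h | h | h
      · exact S.sep.yT h
      · exact S.sep.yK (h21 s h S.sep.yT)
      · exact S.sep.yK (hDR (hDJ h))
    have h7 := comps_eq hE (cl_mem_comps hsΘ) hxE (h6 h3)
    exact hsE (by rw [h7]; exact self_mem G Θ s)
  have hxQ : x ∈ Q := comps_closed hQ hαQ hαx hx2
  exact ⟨x, hxR, hxQ, huniq x hxR hxQ, hx3, hx1, hx2, hαx⟩

/-- an element of the separator different from `α` is adjacent to a common component -/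
theorem Side.exists_partner [Finite V] {P KP : Set V} {v : V} (hA : Acc G)
    (S : Side G d s R T1 α) (hKP : KP ∈ comps G P) (hs : s ∈ KP) (hv1 : v ∈ T1) (hvP : v ∈ P)
    (hαP : α ∈ P) (hvα : v ≠ α)
    (hO : (T1 ∩ P).ncard + cc G ∅ ≤ (Ov G T1 R P KP).ncard + 2) :
    ∃ M ∈ Ov G T1 R P KP, ∃ y ∈ M, G.Adj v y := by
  by_contra hcon
  push Not at hcon
  have h1 : (Ov G T1 R P KP).ncard + 1 ≤ (((T1 ∩ P) \ {α}) \ {v}).ncard + cc G ∅ := by
    refine S.count hA hKP hs (fun x hx => hx.1.1.1) ?_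
    intro M hM u hu w ha hw
    have h2 := S.bd hKP hs hM hu ha hw
    refine ⟨⟨⟨h2.1, h2.2.1⟩, h2.2.2⟩, ?_⟩
    intro h3
    rw [Set.mem_singleton_iff] at h3
    subst h3
    exact hcon M hM u hu ha.symm
  have h2 : ((T1 ∩ P) \ {α}).ncard + 1 = (T1 ∩ P).ncard :=
    Set.ncard_sdiff_singleton_add_one ⟨S.mem, hαP⟩
  have h3 : (((T1 ∩ P) \ {α}) \ {v}).ncard + 1 = ((T1 ∩ P) \ {α}).ncard :=
    Set.ncard_sdiff_singleton_add_one ⟨⟨hv1, hvP⟩, hvα⟩
  omega

end

variable {a b c d s t : V}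

/-- An accessible graph which is maximal in a suitable sense does not contain the configuration. -/
theorem no_CB [Finite V] (h : CB G a b c d s t) (hA : Acc G)
    (hmax : ∀ w, CB (Cp G w) a b c d s t → Cp G w = G) : False := by
  -- the separators `T1`, `T2`
  obtain ⟨R, T1, Sp1⟩ := exists_sep (G := G) h.sd'.symm h.sd
  obtain ⟨Q, T2, Sp2⟩ := exists_sep (G := G) h.td'.symm h.td
  obtain ⟨ha1, hb1, hcR, htR, hcT1, htT1⟩ := h.side_facts Sp1
  obtain ⟨hc2, hb2, haQ, hsQ, haT2, hsT2⟩ := h.symm.side_facts Sp2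
  obtain ⟨p21, p12⟩ := h.pair12 Sp1 Sp2
  obtain ⟨α, hα1, hαd⟩ := hA.deg_two Sp1.cut ⟨a, ha1⟩
  obtain ⟨γ, hγ2, hγd⟩ := hA.deg_two Sp2.cut ⟨c, hc2⟩
  have S1 : Side G d s R T1 α := ⟨Sp1, hα1, hαd⟩
  have S2 : Side G d t Q T2 γ := ⟨Sp2, hγ2, hγd⟩
  obtain ⟨hα2, hαa, hαb, hαc⟩ := h.alpha hA hmax S1 Sp2
  obtain ⟨hγ1, hγc, hγb, hγa⟩ := h.symm.alpha hA (fun w hw => hmax w hw.symm) S2 Sp1
  -- the separator `T4`
  obtain ⟨A, T4, S4⟩ := exists_sep (G := G) h.ac' (fun h' => h.ac h'.symm)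
  let C : Set V := cl G T4 c
  have hC : C ∈ comps G T4 := cl_mem_comps S4.yT
  have hcC : c ∈ C := self_mem G T4 c
  have hACne : A ≠ C := by
    intro h'
    exact S4.yK (by rw [h']; exact hcC)
  have hsT4 : s ∉ T4 := fun h' => h.sc (S4.adjy s h').symm
  have hsA : s ∈ A := (S4.mem_or S4.hx h.sa.symm).resolve_right hsT4
  have hAt : ∀ y ∈ A, ¬ G.Adj t y := by
    intro y hy hty
    exact (S4.far y hy).2 (h.st c y h.tc hty (S4.far y hy).1.symm)
  have htT4 : t ∉ T4 := by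
    intro h'
    obtain ⟨u, hu, htu⟩ := S4.adjK t h'
    exact hAt u hu htu
  have htC : t ∈ C := cl_step hcC h.tc.symm htT4
  have mem4 : ∀ {x : V}, G.Adj a x → G.Adj c x → x ∈ T4 := by
    intro x hx hx'
    exact (S4.mem_or S4.hx hx).resolve_left fun h' => (S4.far x h').2 hx'
  have hαT4 : α ∈ T4 := mem4 hαa.symm hαc.symm
  have hγT4 : γ ∈ T4 := mem4 hγa.symm hγc.symm
  -- the pair `T1`, `T4`
  have p41 : ∀ x ∈ T4, x ∉ T1 → x ∈ R := by
    intro x hx hx1
    exact (Sp1.mem_or hcR (S4.adjy x hx)).resolve_right hx1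
  have p14 : ∀ x ∈ T1, x ∉ T4 → x ∈ A := by
    intro x hx hx4
    by_cases hxa : x = a
    · rw [hxa]
      exact S4.hx
    · exact (S4.mem_or S4.hx (h.ss x a (Sp1.adjy x hx) h.sa hxa).symm).resolve_right hx4
  obtain ⟨i1, -, i3⟩ := S1.main hA S4.cut S4.hK hsA p41 p14
  have i3 := i3 hαT4
  -- the pair `T2`, `T4`
  have hAQ : A ⊆ Q := by
    have h1 := comps_connected (T' := T2) S4.hK S4.hx (fun y hy hy2 => hAt y hy (Sp2.adjy y hy2))
    rwa [← (comps_eq_cl Sp2.hK haQ).2] at h1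
  have p42 : ∀ x ∈ T4, x ∉ T2 → x ∈ Q := by
    intro x hx hx2
    obtain ⟨u, hu, hxu⟩ := S4.adjK x hx
    exact (Sp2.mem_or (hAQ hu) hxu.symm).resolve_right hx2
  have p24 : ∀ x ∈ T2, x ∉ T4 → x ∈ C := by
    intro x hx hx4
    by_cases hxc : x = c
    · rw [hxc]
      exact hcC
    · exact cl_step hcC (h.st x c (Sp2.adjy x hx) h.tc hxc).symm hx4
  obtain ⟨j1, -, j3⟩ := S2.main hA S4.cut hC htC p42 p24
  have j3 := j3 hγT4
  -- the pair `T1`, `T2`
  obtain ⟨k1, k2, -⟩ := S1.main hA Sp2.cut Sp2.hK hsQ p21 p12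
  have hdT1 : d ∉ T1 := comps_notMem Sp1.hK Sp1.hx
  have hdT2 : d ∉ T2 := comps_notMem Sp2.hK Sp2.hx
  let D : Set V := cl G (T1 ∪ T2) d
  have hdD : d ∈ D := self_mem G _ d
  have hD : D ∈ comps G (T1 ∪ T2) := cl_mem_comps (by
    rintro (h' | h')
    · exact hdT1 h'
    · exact hdT2 h')
  have memEv : ∀ x, x ∈ R → x ∈ Q → cl G (T1 ∪ T2) x ∈ Ev G T1 R T2 Q := by
    intro x hx1 hx2
    refine ⟨cl_mem_comps ?_, cl_sub ?_ hx1, cl_sub ?_ hx2⟩
    · rintro (h' | h')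
      · exact comps_notMem Sp1.hK hx1 h'
      · exact comps_notMem Sp2.hK hx2 h'
    · intro u hu v huv hv
      exact comps_closed Sp1.hK hu huv fun h' => hv (Or.inl h')
    · intro u hu v huv hv
      exact comps_closed Sp2.hK hu huv fun h' => hv (Or.inr h')
  have hDE := memEv d Sp1.hx Sp2.hx
  have hEle : (Ev G T1 R T2 Q).ncard ≤ 1 := by omega
  have hEpos : 0 < (Ev G T1 R T2 Q).ncard := by
    rw [Set.ncard_pos (Set.toFinite _)]
    exact ⟨_, hDE⟩
  have huniq : ∀ x, x ∈ R → x ∈ Q → x ∈ D := by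
    intro x hx1 hx2
    have h1 := (Set.ncard_le_one_iff (Set.toFinite _)).1 hEle (memEv x hx1 hx2) hDE
    show x ∈ cl G (T1 ∪ T2) d
    rw [← h1]
    exact self_mem G _ x
  have hDR : D ⊆ R := hDE.2.1
  have hDQ : D ⊆ Q := hDE.2.2
  have hDT1 : ∀ x ∈ D, x ∉ T1 := fun x hx h' => comps_notMem hD hx (Or.inl h')
  have hDT2 : ∀ x ∈ D, x ∉ T2 := fun x hx h' => comps_notMem hD hx (Or.inr h')
  have haD : a ∉ D := fun h' => hDT1 a h' ha1
  have hcD : c ∉ D := fun h' => hDT2 c h' hc2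
  -- `A` and `R`, `C` and `Q` are disjoint
  have hAR : ∀ x ∈ A, x ∉ R := by
    intro x hxA hxR
    have h1 : 0 < (Ev G T1 R T4 A).ncard := by
      rw [Set.ncard_pos (Set.toFinite _)]
      refine ⟨cl G (T1 ∪ T4) x, cl_mem_comps ?_, cl_sub ?_ hxR, cl_sub ?_ hxA⟩
      · rintro (h' | h')
        · exact comps_notMem Sp1.hK hxR h'
        · exact comps_notMem S4.hK hxA h'
      · intro u hu v huv hv
        exact comps_closed Sp1.hK hu huv fun h' => hv (Or.inl h')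
      · intro u hu v huv hv
        exact comps_closed S4.hK hu huv fun h' => hv (Or.inr h')
    omega
  have hCQ : ∀ x ∈ C, x ∉ Q := by
    intro x hxC hxQ
    have h1 : 0 < (Ev G T2 Q T4 C).ncard := by
      rw [Set.ncard_pos (Set.toFinite _)]
      refine ⟨cl G (T2 ∪ T4) x, cl_mem_comps ?_, cl_sub ?_ hxQ, cl_sub ?_ hxC⟩
      · rintro (h' | h')
        · exact comps_notMem Sp2.hK hxQ h'
        · exact comps_notMem hC hxC h'
      · intro u hu v huv hv
        exact comps_closed Sp2.hK hu huv fun h' => hv (Or.inl h')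
      · intro u hu v huv hv
        exact comps_closed hC hu huv fun h' => hv (Or.inr h')
    omega
  let 𝓓 : Set (Set V) := {K | K ∈ comps G T4 ∧ K ⊆ D}
  let DJ : Set V := {x | x ∈ T4 ∧ x ∈ D}
  -- the components of `G - T4`
  have hcover : comps G T4 ⊆ ({A, C} : Set (Set V)) ∪
      ((Ov G T1 R T4 A ∪ Ov G T2 Q T4 C) ∪ 𝓓) := by
    intro L hL
    by_cases hLA : L = A
    · exact Or.inl (Or.inl hLA)
    by_cases hLC : L = C
    · exact Or.inl (Or.inr hLC)
    right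
    have hL1 : ∀ x ∈ L, x ∉ T1 := fun x hx h1 =>
      hLA (comps_eq hL S4.hK hx (p14 x h1 (comps_notMem hL hx)))
    have hL2 : ∀ x ∈ L, x ∉ T2 := fun x hx h1 =>
      hLC (comps_eq hL hC hx (p24 x h1 (comps_notMem hL hx)))
    obtain ⟨x, hx⟩ := comps_nonempty hL
    by_cases hxR : x ∈ R
    · by_cases hxQ : x ∈ Q
      · right
        refine ⟨hL, ?_⟩
        have h1 := comps_connected (T' := T1 ∪ T2) hL hx (by
          intro y hy hyU
          rcases hyU with h' | h'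
          · exact hL1 y hy h'
          · exact hL2 y hy h')
        have h2 : cl G (T1 ∪ T2) x = D := (comps_eq_cl hD (huniq x hxR hxQ)).2.symm
        rwa [h2] at h1
      · left; right
        have hM : cl G T2 x ∈ comps G T2 := cl_mem_comps (hL2 x hx)
        have hMQ : ∀ y ∈ cl G T2 x, y ∉ Q := fun y hy hyQ =>
          hxQ (by rw [comps_eq Sp2.hK hM hyQ hy]; exact self_mem G T2 x)
        have e1 : cl G T2 x ⊆ cl G T4 x := comps_connected hM (self_mem G T2 x)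
          (fun y hy hy4 => hMQ y hy (p42 y hy4 (comps_notMem hM hy)))
        have e2 : L ⊆ cl G T2 x := comps_connected hL hx hL2
        have e3 : L = cl G T4 x := (comps_eq_cl hL hx).2
        have e4 : L = cl G T2 x := Set.Subset.antisymm e2 (by rw [e3]; exact e1)
        refine ⟨by rw [e4]; exact hM, ?_, hL, hLC⟩
        intro h'
        exact hxQ (by rw [← h']; exact hx)
    · left; left
      have hM : cl G T1 x ∈ comps G T1 := cl_mem_comps (hL1 x hx)
      have hMR : ∀ y ∈ cl G T1 x, y ∉ R := fun y hy hyR =>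
        hxR (by rw [comps_eq Sp1.hK hM hyR hy]; exact self_mem G T1 x)
      have e1 : cl G T1 x ⊆ cl G T4 x := comps_connected hM (self_mem G T1 x)
        (fun y hy hy4 => hMR y hy (p41 y hy4 (comps_notMem hM hy)))
      have e2 : L ⊆ cl G T1 x := comps_connected hL hx hL1
      have e3 : L = cl G T4 x := (comps_eq_cl hL hx).2
      have e4 : L = cl G T1 x := Set.Subset.antisymm e2 (by rw [e3]; exact e1)
      refine ⟨by rw [e4]; exact hM, ?_, hL, hLA⟩
      intro h'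
      exact hxR (by rw [← h']; exact hx)
  have hOO : Ov G T1 R T2 Q ⊆ Ov G T1 R T4 A ∩ Ov G T2 Q T4 C := by
    rintro M ⟨m1, m2, m3, m4⟩
    have hMR : ∀ y ∈ M, y ∉ R := fun y hy hyR => m2 (comps_eq m1 Sp1.hK hy hyR)
    have hM4 : M ∈ comps G T4 := by
      refine comps_transfer m1 ?_ ?_
      · intro y hy hy4
        exact hMR y hy (p41 y hy4 (comps_notMem m1 hy))
      · intro u hu v huv hv
        have h1 := comps_bd m1 hu huv hv
        have h2 := comps_bd m3 hu huv hv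
        have hva : v ≠ a := by
          rintro rfl
          exact haT2 h2
        have hvc : v ≠ c := by
          rintro rfl
          exact hcT1 h1
        exact mem4 (h.ss a v h.sa (Sp1.adjy v h1) hva.symm)
          (h.st c v h.tc (Sp2.adjy v h2) hvc.symm)
    refine ⟨⟨m1, m2, hM4, ?_⟩, ⟨m3, m4, hM4, ?_⟩⟩
    · rintro rfl
      exact comps_notMem m1 S4.hx ha1
    · intro h'
      exact comps_notMem m3 (x := c) (by rw [h']; exact hcC) hc2
  -- counting
  have c1 : cc G T4 = T4.ncard + cc G ∅ := hA.unm T4 S4.cut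
  have c2 : cc G T4 ≤ 2 + ((Ov G T1 R T4 A ∪ Ov G T2 Q T4 C).ncard + 𝓓.ncard) := by
    unfold cc
    refine (Set.ncard_le_ncard hcover (Set.toFinite _)).trans ?_
    refine (Set.ncard_union_le _ _).trans ?_
    have e1 : ({A, C} : Set (Set V)).ncard ≤ 2 := by
      rw [Set.ncard_pair hACne]
    have e2 := Set.ncard_union_le (Ov G T1 R T4 A ∪ Ov G T2 Q T4 C) 𝓓
    omega
  have c3 := Set.ncard_union_add_ncard_inter (Ov G T1 R T4 A) (Ov G T2 Q T4 C)
  have c4 := Set.ncard_le_ncard hOO (Set.toFinite _)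
  have c5 : (T1 ∩ T4).ncard + (T2 ∩ T4).ncard + DJ.ncard ≤ T4.ncard + (T1 ∩ T2).ncard := by
    have e1 := Set.ncard_union_add_ncard_inter (T1 ∩ T4) (T2 ∩ T4)
    have e2 : ((T1 ∩ T4) ∩ (T2 ∩ T4)).ncard ≤ (T1 ∩ T2).ncard :=
      Set.ncard_le_ncard (fun x hx => ⟨hx.1.1, hx.2.1⟩) (Set.toFinite _)
    have e3 : Disjoint ((T1 ∩ T4) ∪ (T2 ∩ T4)) DJ := by
      rw [Set.disjoint_left]
      rintro x (hx | hx) hx'
      · exact hDT1 x hx'.2 hx.1
      · exact hDT2 x hx'.2 hx.1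
    have e4 := Set.ncard_union_eq e3
    have e5 : ((T1 ∩ T4) ∪ (T2 ∩ T4)) ∪ DJ ⊆ T4 := by
      rintro x ((hx | hx) | hx)
      · exact hx.2
      · exact hx.2
      · exact hx.1
    have e6 := Set.ncard_le_ncard e5 (Set.toFinite _)
    omega
  have c6 : DJ.ncard + 1 ≤ 𝓓.ncard := by omega
  -- the set `T1 ∪ T2`
  have c7 : (T1 ∪ T2).ncard + cc G ∅ ≤ cc G (T1 ∪ T2) := by
    have e1 := pair_count Sp1.hK Sp2.hK p21 p12
    have e2 := hA.unm T1 Sp1.cut
    have e3 := hA.unm T2 Sp2.cut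
    have e4 := Set.ncard_union_add_ncard_inter T1 T2
    omega
  have extend : ∀ X : Set V, X ⊆ DJ →
      (∀ K ∈ 𝓓, ∀ u ∈ K, ∀ v, G.Adj u v → v ∉ K → v ∈ T1 ∪ T2 ∪ X) →
      (T1 ∪ T2).ncard + cc G ∅ + 𝓓.ncard ≤ cc G (T1 ∪ T2 ∪ X) + 1 := by
    intro X hX hb
    have e1 : (comps G (T1 ∪ T2) \ {D}).ncard + 1 = cc G (T1 ∪ T2) :=
      Set.ncard_sdiff_singleton_add_one hD
    have e2 : Disjoint (comps G (T1 ∪ T2) \ {D}) 𝓓 := by
      rw [Set.disjoint_left]
      rintro M hM hM'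
      obtain ⟨x, hx⟩ := comps_nonempty hM.1
      exact hM.2 (comps_eq hM.1 hD hx (hM'.2 hx))
    have e3 := Set.ncard_union_eq e2
    have e4 : (comps G (T1 ∪ T2) \ {D}) ∪ 𝓓 ⊆ comps G (T1 ∪ T2 ∪ X) := by
      rintro M (hM | hM)
      · refine comps_transfer hM.1 ?_ ?_
        · rintro y hy (hyT | hyX)
          · exact comps_notMem hM.1 hy hyT
          · exact hM.2 (comps_eq hM.1 hD hy (hX hyX).2)
        · intro u hu v ha hv
          exact Or.inl (comps_bd hM.1 hu ha hv)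
      · refine comps_transfer hM.1 ?_ (hb M hM)
        rintro y hy (hyT | hyX)
        · exact comps_notMem hD (hM.2 hy) hyT
        · exact comps_notMem hM.1 hy (hX hyX).1
    have e5 := Set.ncard_le_ncard e4 (Set.toFinite _)
    unfold cc at *
    omega
  have bdD : ∀ K ∈ 𝓓, ∀ u ∈ K, ∀ v, G.Adj u v → v ∉ K → v ∈ T1 ∪ T2 ∨ v ∈ DJ := by
    intro K hK u hu v ha hv
    have h1 := comps_bd hK.1 hu ha hv
    by_cases hvD : v ∈ D
    · exact Or.inr ⟨h1, hvD⟩
    · exact Or.inl (comps_bd hD (hK.2 hu) ha hvD)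
  have hDJ : DJ ⊆ D := fun x hx => hx.2
  -- the degrees of `α` and `γ` for `Θ`
  have c8 := extend DJ (fun x hx => hx) (by
    intro K hK u hu v ha hv
    rcases bdD K hK u hu v ha hv with h' | h'
    · exact Or.inl h'
    · exact Or.inr h')
  have c9 : (T1 ∪ T2 ∪ DJ).ncard ≤ (T1 ∪ T2).ncard + DJ.ncard := Set.ncard_union_le _ _
  have degΘ : ∀ v, v ∈ T1 ∪ T2 ∪ DJ → 2 ≤ deg G (T1 ∪ T2 ∪ DJ) v := by
    intro v hv
    have e1 := cc_erase (G := G) hv
    have e2 := hA.bound ((T1 ∪ T2 ∪ DJ) \ {v})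
    have e3 := Set.ncard_sdiff_singleton_add_one hv
    omega
  have hαQ : α ∈ Q := p12 α hα1 hα2
  have hγR : γ ∈ R := p21 γ hγ2 hγ1
  obtain ⟨x, hxR, hxQ, hxD, hxJ, hx1, hx2, hαx⟩ := S1.reach p21 Sp2.hK hαQ huniq hDR hDJ
    (Θ := T1 ∪ T2 ∪ DJ) (by
      intro x
      simp only [Set.mem_union]
      tauto) (degΘ α (Or.inl (Or.inl hα1)))
  obtain ⟨y, hyQ, hyR, hyD, hyJ, hy2, hy1, hγy⟩ := S2.reach p12 Sp1.hK hγR
    (fun x hx hx' => huniq x hx' hx) hDQ hDJ (Θ := T1 ∪ T2 ∪ DJ) (by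
      intro x
      simp only [Set.mem_union]
      tauto) (degΘ γ (Or.inl (Or.inr hγ2)))
  -- an element of `T4` adjacent to only two components
  obtain ⟨v, hv, hvdeg⟩ := hA.deg_two S4.cut ⟨α, hαT4⟩
  have hvA := S4.adjK v hv
  have hvC : ∃ y ∈ C, G.Adj v y := ⟨c, hcC, (S4.adjy v hv).symm⟩
  have third : ∀ M ∈ comps G T4, M ≠ A → M ≠ C → ¬ ∃ y ∈ M, G.Adj v y := by
    intro M hM h1 h2 h3
    have := three_le_deg S4.hK hC hM hvA hvC h3 hACne h1.symm h2.symm
    omega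
  have third' : ∀ z ∈ D, z ∉ DJ → ¬ G.Adj v z := by
    intro z hzD hzJ hvz
    have hz4 : z ∉ T4 := fun h' => hzJ ⟨h', hzD⟩
    refine third (cl G T4 z) (cl_mem_comps hz4) ?_ ?_ ⟨z, self_mem G T4 z, hvz⟩
    · intro h'
      exact hAR z (by rw [← h']; exact self_mem G T4 z) (hDR hzD)
    · intro h'
      exact hCQ z (by rw [← h']; exact self_mem G T4 z) (hDQ hzD)
  by_cases hv1 : v ∈ T1
  · by_cases hvα : v = α
    · subst hvα
      exact third' x hxD hxJ hαx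
    · obtain ⟨M, hM, y, hyM, hvy⟩ := S1.exists_partner hA S4.hK hsA hv1 hv hαT4 hvα (by omega)
      refine third M hM.2.2.1 hM.2.2.2 ?_ ⟨y, hyM, hvy⟩
      intro h'
      exact hM.2.1 (comps_eq hM.1 Sp1.hK (x := c) (by rw [h']; exact hcC) hcR)
  · by_cases hv2 : v ∈ T2
    · by_cases hvγ : v = γ
      · subst hvγ
        exact third' y hyD hyJ hγy
      · obtain ⟨M, hM, y, hyM, hvy⟩ := S2.exists_partner hA hC htC hv2 hv hγT4 hvγ (by omega)
        refine third M hM.2.2.1 ?_ hM.2.2.2 ⟨y, hyM, hvy⟩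
        intro h'
        exact hM.2.1 (comps_eq hM.1 Sp2.hK (x := a) (by rw [h']; exact S4.hx) haQ)
    · have hvD : v ∈ D := huniq v (p41 v hv hv1) (p42 v hv hv2)
      have hvJ : v ∈ DJ := ⟨hv, hvD⟩
      have e1 := extend (DJ \ {v}) (fun x hx => hx.1) (by
        intro K hK u hu w ha hw
        rcases bdD K hK u hu w ha hw with h' | h'
        · exact Or.inl h'
        · refine Or.inr ⟨h', ?_⟩
          intro h''
          rw [Set.mem_singleton_iff] at h''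
          subst h''
          refine third K hK.1 ?_ ?_ ⟨u, hu, ha.symm⟩
          · rintro rfl
            exact haD (hK.2 S4.hx)
          · intro h3
            exact hcD (hK.2 (by rw [h3]; exact hcC)))
      have e2 := hA.bound (T1 ∪ T2 ∪ (DJ \ {v}))
      have e3 : (T1 ∪ T2 ∪ (DJ \ {v})).ncard ≤ (T1 ∪ T2).ncard + (DJ \ {v}).ncard :=
        Set.ncard_union_le _ _
      have e4 := Set.ncard_sdiff_singleton_add_one hvJ
      omega

end Pool.Agent.H629.AccG
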