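import Pool.Agent.H629.AccBase

/-!
# Accessible graphs and the forbidden configuration (MP_12e671_al, helper629)

The configuration: an induced four-cycle `a b c d` and two simplicial vertices `s` and `t` such that
the neighbours of `s` on the cycle are `a` and `b`, and the neighbours of `t` are `b` and `c`.
-/

set_option autoImplicit false

namespace Pool.Agent.H629.AccG

variable {V : Type*} {G : SimpleGraph V}

theorem three_le_deg [Finite V] {T : Set V} {i : V} {K1 K2 K3 : Set V}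
    (h1 : K1 ∈ comps G T) (h2 : K2 ∈ comps G T) (h3 : K3 ∈ comps G T)
    (a1 : ∃ y ∈ K1, G.Adj i y) (a2 : ∃ y ∈ K2, G.Adj i y) (a3 : ∃ y ∈ K3, G.Adj i y)
    (n1 : K1 ≠ K2) (n2 : K1 ≠ K3) (n3 : K2 ≠ K3) : 3 ≤ deg G T i := by
  have : 2 < deg G T i := by
    unfold deg
    rw [Set.two_lt_ncard_iff (Set.toFinite _)]
    exact ⟨K1, K2, K3, ⟨h1, a1⟩, ⟨h2, a2⟩, ⟨h3, a3⟩, n1, n2, n3⟩
  omega

/-- common components of `G - P` and `G - Q`, two of them excluded -/
def Ov (G : SimpleGraph V) (P KP Q KQ : Set V) : Set (Set V) :=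
  {M | M ∈ comps G P ∧ M ≠ KP ∧ M ∈ comps G Q ∧ M ≠ KQ}

/-- components of `G - (P ∪ Q)` in two given components -/
def Ev (G : SimpleGraph V) (P KP Q KQ : Set V) : Set (Set V) :=
  {E | E ∈ comps G (P ∪ Q) ∧ E ⊆ KP ∧ E ⊆ KQ}

theorem pair_count [Finite V] {P Q KP KQ : Set V} (hKP : KP ∈ comps G P) (hKQ : KQ ∈ comps G Q)
    (h1 : ∀ x ∈ Q, x ∉ P → x ∈ KP) (h2 : ∀ x ∈ P, x ∉ Q → x ∈ KQ) :
    cc G P + cc G Q + (Ev G P KP Q KQ).ncard ≤
      cc G (P ∪ Q) + (Ov G P KP Q KQ).ncard + 2 := by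
  have e1 : (comps G P \ {KP}).ncard + 1 = cc G P := Set.ncard_sdiff_singleton_add_one hKP
  have e2 : (comps G Q \ {KQ}).ncard + 1 = cc G Q := Set.ncard_sdiff_singleton_add_one hKQ
  have e3 := Set.ncard_union_add_ncard_inter (comps G P \ {KP}) (comps G Q \ {KQ})
  have e4 : (comps G P \ {KP}) ∩ (comps G Q \ {KQ}) = Ov G P KP Q KQ := by
    ext M
    constructor
    · rintro ⟨⟨m1, m2⟩, m3, m4⟩
      exact ⟨m1, m2, m3, m4⟩
    · rintro ⟨m1, m2, m3, m4⟩
      exact ⟨⟨m1, m2⟩, m3, m4⟩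
  have e5 : Disjoint ((comps G P \ {KP}) ∪ (comps G Q \ {KQ})) (Ev G P KP Q KQ) := by
    rw [Set.disjoint_left]
    rintro M hM ⟨m1, m2, m3⟩
    obtain ⟨x, hx⟩ := comps_nonempty m1
    rcases hM with hM | hM
    · exact hM.2 (comps_eq hM.1 hKP hx (m2 hx))
    · exact hM.2 (comps_eq hM.1 hKQ hx (m3 hx))
  have e6 := Set.ncard_union_eq e5
  have e7 : (comps G P \ {KP}) ∪ (comps G Q \ {KQ}) ∪ Ev G P KP Q KQ ⊆ comps G (P ∪ Q) := by
    rintro M ((hM | hM) | hM)
    · refine comps_transfer hM.1 ?_ ?_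
      · intro y hy hyU
        rcases hyU with h | h
        · exact comps_notMem hM.1 hy h
        · exact hM.2 (comps_eq hM.1 hKP hy (h1 y h (comps_notMem hM.1 hy)))
      · intro u hu v ha hv
        exact Or.inl (comps_bd hM.1 hu ha hv)
    · refine comps_transfer hM.1 ?_ ?_
      · intro y hy hyU
        rcases hyU with h | h
        · exact hM.2 (comps_eq hM.1 hKQ hy (h2 y h (comps_notMem hM.1 hy)))
        · exact comps_notMem hM.1 hy h
      · intro u hu v ha hv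
        exact Or.inr (comps_bd hM.1 hu ha hv)
    · exact hM.1
  have e8 := Set.ncard_le_ncard e7 (Set.toFinite _)
  rw [e4] at e3
  unfold cc at *
  omega

/-- a minimal separator together with an element adjacent to only two components -/
structure Side (G : SimpleGraph V) (d s : V) (R T : Set V) (α : V) : Prop where
  sep : Sep G d s R T
  mem : α ∈ T
  deg : deg G T α = 2

section

variable {d s α : V} {R T Q KQ : Set V}

theorem Side.bd [Finite V] (S : Side G d s R T α) (hKQ : KQ ∈ comps G Q) (hs : s ∈ KQ)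
    {M : Set V} (hM : M ∈ Ov G T R Q KQ) {u v : V} (hu : u ∈ M) (ha : G.Adj u v) (hv : v ∉ M) :
    v ∈ T ∧ v ∈ Q ∧ v ≠ α := by
  obtain ⟨m1, m2, m3, m4⟩ := hM
  refine ⟨comps_bd m1 hu ha hv, comps_bd m3 hu ha hv, ?_⟩
  rintro rfl
  have h3 : 3 ≤ AccG.deg G T v := by
    refine three_le_deg m1 S.sep.hK (cl_mem_comps S.sep.yT) ⟨u, hu, ha.symm⟩
      (S.sep.adjK v S.mem) ⟨s, self_mem G T s, (S.sep.adjy v S.mem).symm⟩ m2 ?_ ?_
    · intro h
      have : s ∈ M := by
        rw [h]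
        exact self_mem G T s
      exact m4 (comps_eq m3 hKQ this hs)
    · intro h
      have : s ∈ R := by
        rw [h]
        exact self_mem G T s
      exact S.sep.yK this
  have h4 := S.deg
  omega

theorem Side.count [Finite V] (hA : Acc G) (S : Side G d s R T α) (hKQ : KQ ∈ comps G Q)
    (hs : s ∈ KQ) {W : Set V} (hW : W ⊆ T)
    (hb : ∀ M ∈ Ov G T R Q KQ, ∀ u ∈ M, ∀ v, G.Adj u v → v ∉ M → v ∈ W) :
    (Ov G T R Q KQ).ncard + 1 ≤ W.ncard + cc G ∅ := by
  have hsW : s ∉ W := fun h => S.sep.yT (hW h)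
  have h1 : cl G W s ∉ Ov G T R Q KQ := by
    rintro ⟨m1, m2, m3, m4⟩
    exact m4 (comps_eq m3 hKQ (self_mem G W s) hs)
  have h2 : insert (cl G W s) (Ov G T R Q KQ) ⊆ comps G W := by
    rintro M (rfl | hM)
    · exact cl_mem_comps hsW
    · exact comps_transfer hM.1 (fun y hy h => comps_notMem hM.1 hy (hW h)) (hb M hM)
  have h3 := Set.ncard_le_ncard h2 (Set.toFinite _)
  rw [Set.ncard_insert_of_notMem h1 (Set.toFinite _)] at h3
  have h4 := hA.bound W
  unfold cc at *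
  omega

theorem Side.main [Finite V] (hA : Acc G) (S : Side G d s R T α) (hQ : IsCut G Q)
    (hKQ : KQ ∈ comps G Q) (hs : s ∈ KQ) (h1 : ∀ x ∈ Q, x ∉ T → x ∈ R)
    (h2 : ∀ x ∈ T, x ∉ Q → x ∈ KQ) :
    (Ev G T R Q KQ).ncard + (T ∩ Q).ncard + cc G ∅ ≤ (Ov G T R Q KQ).ncard + 2 ∧
    (Ov G T R Q KQ).ncard + 1 ≤ (T ∩ Q).ncard + cc G ∅ ∧
    (α ∈ Q → (Ov G T R Q KQ).ncard + 2 ≤ (T ∩ Q).ncard + cc G ∅) := by
  refine ⟨?_, ?_, ?_⟩
  · have e1 := pair_count S.sep.hK hKQ h1 h2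
    have e2 := hA.unm T S.sep.cut
    have e3 := hA.unm Q hQ
    have e4 := hA.bound (T ∪ Q)
    have e5 := Set.ncard_union_add_ncard_inter T Q
    omega
  · refine S.count hA hKQ hs Set.inter_subset_left ?_
    intro M hM u hu v ha hv
    have := S.bd hKQ hs hM hu ha hv
    exact ⟨this.1, this.2.1⟩
  · intro hα
    have h3 : (Ov G T R Q KQ).ncard + 1 ≤ ((T ∩ Q) \ {α}).ncard + cc G ∅ := by
      refine S.count hA hKQ hs (fun x hx => hx.1.1) ?_
      intro M hM u hu v ha hv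
      have := S.bd hKQ hs hM hu ha hv
      exact ⟨⟨this.1, this.2.1⟩, this.2.2⟩
    have h4 : ((T ∩ Q) \ {α}).ncard + 1 = (T ∩ Q).ncard :=
      Set.ncard_sdiff_singleton_add_one ⟨S.mem, hα⟩
    omega

end

/-- the configuration -/
structure CB (G : SimpleGraph V) (a b c d s t : V) : Prop where
  ab : G.Adj a b
  bc : G.Adj b c
  cd : G.Adj c d
  da : G.Adj d a
  ac : ¬ G.Adj a c
  bd : ¬ G.Adj b d
  ac' : a ≠ c
  bd' : b ≠ d
  sa : G.Adj s a
  sb : G.Adj s b
  sc : ¬ G.Adj s c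
  sd : ¬ G.Adj s d
  sc' : s ≠ c
  sd' : s ≠ d
  tb : G.Adj t b
  tc : G.Adj t c
  ta : ¬ G.Adj t a
  td : ¬ G.Adj t d
  ta' : t ≠ a
  td' : t ≠ d
  ss : ∀ y z, G.Adj s y → G.Adj s z → y ≠ z → G.Adj y z
  st : ∀ y z, G.Adj t y → G.Adj t z → y ≠ z → G.Adj y z

variable {a b c d s t : V}

theorem CB.symm (h : CB G a b c d s t) : CB G c b a d t s where
  ab := h.bc.symm
  bc := h.ab.symm
  cd := h.da.symm
  da := h.cd.symm
  ac := fun h' => h.ac h'.symm
  bd := h.bd
  ac' := h.ac'.symm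
  bd' := h.bd'
  sa := h.tc
  sb := h.tb
  sc := h.ta
  sd := h.td
  sc' := h.ta'
  sd' := h.td'
  tb := h.sb
  tc := h.sa
  ta := h.sc
  td := h.sd
  ta' := h.sc'
  td' := h.sd'
  ss := h.st
  st := h.ss

theorem CB.st_ne (h : CB G a b c d s t) : ¬ G.Adj s t := fun h' =>
  h.ta (h.ss t a h' h.sa h.ta')

/-- the configuration survives the completion at a vertex which is adjacent neither to `c` nor to
`d` -/
theorem CB.completion (h : CB G a b c d s t) {w : V} (hws : G.Adj w s) (hwc : ¬ G.Adj w c)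
    (hwd : ¬ G.Adj w d) : CB (Cp G w) a b c d s t := by
  have hwt : ¬ G.Adj w t := by
    intro h'
    have hne : w ≠ c := by
      rintro rfl
      exact h.sc hws.symm
    exact hwc (h.st w c h'.symm h.tc hne)
  have key : ∀ {x y : V}, ¬ G.Adj w y → (Cp G w).Adj x y → G.Adj x y := by
    rintro x y hy (h' | ⟨-, -, h'⟩)
    · exact h'
    · exact absurd h' hy
  have key' : ∀ {x y : V}, ¬ G.Adj w x → (Cp G w).Adj x y → G.Adj x y := by
    rintro x y hy (h' | ⟨-, h', -⟩)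
    · exact h'
    · exact absurd h' hy
  refine ⟨Or.inl h.ab, Or.inl h.bc, Or.inl h.cd, Or.inl h.da, fun h' => h.ac (key hwc h'),
    fun h' => h.bd (key hwd h'), h.ac', h.bd', Or.inl h.sa, Or.inl h.sb,
    fun h' => h.sc (key hwc h'), fun h' => h.sd (key hwd h'), h.sc', h.sd', Or.inl h.tb,
    Or.inl h.tc, fun h' => h.ta (key' hwt h'), fun h' => h.td (key' hwt h'), h.ta', h.td',
    ?_, ?_⟩
  · have aux : ∀ y, (Cp G w).Adj s y → y = w ∨ G.Adj w y := by
      rintro y (h' | ⟨-, -, h'⟩)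
      · by_cases hy : y = w
        · exact Or.inl hy
        · exact Or.inr (h.ss y w h' hws.symm hy).symm
      · exact Or.inr h'
    intro y z hy hz hne
    rcases aux y hy with rfl | hy'
    · rcases aux z hz with rfl | hz'
      · exact absurd rfl hne
      · exact Or.inl hz'
    · rcases aux z hz with rfl | hz'
      · exact Or.inl hy'.symm
      · exact Or.inr ⟨hne, hy', hz'⟩
  · intro y z hy hz hne
    exact Or.inl (h.st y z (key' hwt hy) (key' hwt hz) hne)

section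

variable {R T1 Q T2 : Set V} {α : V}

/-- elementary facts on the two separators -/
theorem CB.side_facts (h : CB G a b c d s t) (S : Sep G d s R T1) :
    a ∈ T1 ∧ b ∈ T1 ∧ c ∈ R ∧ t ∈ R ∧ c ∉ T1 ∧ t ∉ T1 := by
  have hcT : c ∉ T1 := fun h' => h.sc (S.adjy c h')
  have htT : t ∉ T1 := fun h' => h.st_ne (S.adjy t h')
  have ha : a ∈ T1 := (S.mem_or S.hx h.da).resolve_left fun h' => (S.far a h').2 h.sa
  have hc : c ∈ R := (S.mem_or S.hx h.cd.symm).resolve_right hcT
  have hb : b ∈ T1 := (S.mem_or hc h.bc.symm).resolve_left fun h' => (S.far b h').2 h.sb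
  have ht : t ∈ R := (S.mem_or hc h.tc.symm).resolve_right htT
  exact ⟨ha, hb, hc, ht, hcT, htT⟩

theorem CB.pair12 (h : CB G a b c d s t) (S : Sep G d s R T1) (S2 : Sep G d t Q T2) :
    (∀ x ∈ T2, x ∉ T1 → x ∈ R) ∧ (∀ x ∈ T1, x ∉ T2 → x ∈ Q) := by
  obtain ⟨ha, hb, hc, ht, hcT, htT⟩ := h.side_facts S
  obtain ⟨hc2, hb2, ha2, hs2, haT2, hsT2⟩ := h.symm.side_facts S2
  constructor
  · intro x hx hx1
    by_cases hxc : x = c
    · rw [hxc]
      exact hc
    · exact (S.mem_or hc (h.st x c (S2.adjy x hx) h.tc hxc).symm).resolve_right hx1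
  · intro x hx hx1
    by_cases hxa : x = a
    · rw [hxa]
      exact ha2
    · exact (S2.mem_or ha2 (h.ss x a (S.adjy x hx) h.sa hxa).symm).resolve_right hx1

theorem CB.alpha [Finite V] (h : CB G a b c d s t) (hA : Acc G)
    (hmax : ∀ w, CB (Cp G w) a b c d s t → Cp G w = G) (S : Side G d s R T1 α)
    (S2 : Sep G d t Q T2) : α ∉ T2 ∧ G.Adj α a ∧ G.Adj α b ∧ G.Adj α c := by
  obtain ⟨ha, hb, hc, ht, hcT, htT⟩ := h.side_facts S.sep
  obtain ⟨hc2, hb2, ha2, hs2, haT2, hsT2⟩ := h.symm.side_facts S2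
  obtain ⟨p1, p2⟩ := h.pair12 S.sep S2
  have hsα : G.Adj s α := S.sep.adjy α S.mem
  have hαT2 : α ∉ T2 := by
    intro hα
    obtain ⟨q1, -, q3⟩ := S.main hA S2.cut S2.hK hs2 p1 p2
    have q3 := q3 hα
    have q4 : 0 < (Ev G T1 R T2 Q).ncard := by
      rw [Set.ncard_pos (Set.toFinite _)]
      refine ⟨cl G (T1 ∪ T2) d, cl_mem_comps ?_, cl_sub ?_ S.sep.hx, cl_sub ?_ S2.hx⟩
      · rintro (h' | h')
        · exact comps_notMem S.sep.hK S.sep.hx h'
        · exact comps_notMem S2.hK S2.hx h'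
      · intro u hu v huv hv
        exact comps_closed S.sep.hK hu huv fun h' => hv (Or.inl h')
      · intro u hu v huv hv
        exact comps_closed S2.hK hu huv fun h' => hv (Or.inr h')
    omega
  obtain ⟨B, T3, S3⟩ := exists_sep (G := G) h.bd' (fun h' => h.bd h'.symm)
  have hsT3 : s ∉ T3 := fun h' => h.sd (S3.adjy s h').symm
  have htT3 : t ∉ T3 := fun h' => h.td (S3.adjy t h').symm
  have hsB : s ∈ B := (S3.mem_or S3.hx h.sb.symm).resolve_right hsT3
  have htB : t ∈ B := (S3.mem_or S3.hx h.tb.symm).resolve_right htT3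
  have hαT3 : α ∉ T3 := by
    intro hα
    obtain ⟨q1, -, q3⟩ := S.main hA S3.cut S3.hK hsB (by
      intro x hx hx1
      exact (S.sep.mem_or S.sep.hx (S3.adjy x hx)).resolve_right hx1) (by
      intro x hx hx1
      by_cases hxb : x = b
      · rw [hxb]
        exact S3.hx
      · exact (S3.mem_or S3.hx (h.ss x b (S.sep.adjy x hx) h.sb hxb).symm).resolve_right hx1)
    have q3 := q3 hα
    have q4 : 0 < (Ev G T1 R T3 B).ncard := by
      rw [Set.ncard_pos (Set.toFinite _)]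
      refine ⟨cl G (T1 ∪ T3) t, cl_mem_comps ?_, cl_sub ?_ ht, cl_sub ?_ htB⟩
      · rintro (h' | h')
        · exact htT h'
        · exact htT3 h'
      · intro u hu v huv hv
        exact comps_closed S.sep.hK hu huv fun h' => hv (Or.inl h')
      · intro u hu v huv hv
        exact comps_closed S3.hK hu huv fun h' => hv (Or.inr h')
    omega
  have haT3 : a ∈ T3 := (S3.mem_or S3.hx h.ab.symm).resolve_left fun h' => (S3.far a h').2 h.da
  have hαa : α ≠ a := by
    rintro rfl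
    exact hαT3 haT3
  have hαb : α ≠ b := by
    rintro rfl
    exact hαT2 hb2
  have haa : G.Adj α a := h.ss α a hsα h.sa hαa
  have hab : G.Adj α b := h.ss α b hsα h.sb hαb
  have hαd : ¬ G.Adj α d := by
    intro h'
    exact hαT3 ((S3.mem_or S3.hx hab.symm).resolve_left fun h'' => (S3.far α h'').2 h'.symm)
  refine ⟨hαT2, haa, hab, ?_⟩
  by_contra hαc
  have h1 := hmax α (h.completion hsα.symm hαc hαd)
  obtain ⟨y, hy, hαy⟩ := S.sep.adjK α S.mem
  have h2 : (Cp G α).Adj s y := by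
    refine Or.inr ⟨?_, hsα.symm, hαy⟩
    rintro rfl
    exact S.sep.yK hy
  rw [h1] at h2
  exact (S.sep.far y hy).2 h2

end

end Pool.Agent.H629.AccG
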