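import Mathlib

/-!
# Idempotents in ideals of group algebras of overgroups (MP_146d92_al, helper629)

For a group `G` let `H` be the restricted wreath product of a group of order two with `G`. For each
nonzero `α` in `ℚ[G]` the ideal of `ℚ[H]` generated by `α` contains a nonzero idempotent.
-/

set_option autoImplicit false

namespace Pool.Agent.H629.GA

open MonoidAlgebra Finset

section Wreath

variable (G : Type) [Group G]

/-- the base group of the wreath product -/
abbrev NN : Type := Multiplicative (G →₀ ZMod 2)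

/-- the action by translations -/
noncomputable def act : G →* MulAut (NN G) where
  toFun g := AddEquiv.toMultiplicative (Finsupp.domCongr (Equiv.mulLeft g))
  map_one' := by
    refine MulEquiv.ext fun n => Multiplicative.toAdd.injective (Finsupp.ext fun x => ?_)
    show n.toAdd ((1 : G)⁻¹ * x) = n.toAdd x
    rw [inv_one, one_mul]
  map_mul' g h := by
    refine MulEquiv.ext fun n => Multiplicative.toAdd.injective (Finsupp.ext fun x => ?_)
    show n.toAdd ((g * h)⁻¹ * x) = n.toAdd (h⁻¹ * (g⁻¹ * x))
    rw [mul_inv_rev, mul_assoc]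

/-- the restricted wreath product -/
abbrev HH : Type := NN G ⋊[act G] G

variable {G}

/-- the involution at the place `x` -/
noncomputable def b (x : G) : NN G := Multiplicative.ofAdd (Finsupp.single x 1)

omit [Group G] in
theorem b_sq (x : G) : b x * b x = 1 := by
  apply Multiplicative.toAdd.injective
  show Finsupp.single x (1 : ZMod 2) + Finsupp.single x 1 = 0
  rw [← Finsupp.single_add]
  have : (1 : ZMod 2) + 1 = 0 := by decide
  rw [this, Finsupp.single_zero]

theorem act_b (g x : G) : act G g (b x) = b (g * x) := by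
  apply Multiplicative.toAdd.injective
  show Finsupp.equivMapDomain (Equiv.mulLeft g) (Finsupp.single x (1 : ZMod 2)) =
    Finsupp.single (g * x) 1
  rw [Finsupp.equivMapDomain_single]
  rfl

theorem inr_b (g : G) : (SemidirectProduct.inr g : HH G) * SemidirectProduct.inl (b 1) =
    SemidirectProduct.inl (b g) * SemidirectProduct.inr g := by
  have h := SemidirectProduct.inl_aut (φ := act G) g (b 1)
  rw [act_b, mul_one] at h
  rw [h, map_inv, inv_mul_cancel_right]

/-- the sum of the coordinates at the places different from `1` -/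
noncomputable def sm : (G →₀ ZMod 2) →+ ZMod 2 :=
  open Classical in Finsupp.liftAddHom fun x : G => if x = 1 then 0 else AddMonoidHom.id _

/-- the sign -/
def sg : Multiplicative (ZMod 2) →* ℚ where
  toFun z := if z.toAdd = 0 then 1 else -1
  map_one' := rfl
  map_mul' := by
    intro x y
    obtain ⟨x, rfl⟩ := Multiplicative.ofAdd.surjective x
    obtain ⟨y, rfl⟩ := Multiplicative.ofAdd.surjective y
    show (if x + y = 0 then (1 : ℚ) else -1) = (if x = 0 then 1 else -1) * (if y = 0 then 1 else -1)
    fin_cases x <;> fin_cases y <;> norm_num <;> decide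

/-- the character of the base group -/
noncomputable def chr : NN G →* ℚ := sg.comp (AddMonoidHom.toMultiplicative sm)

theorem chr_b_one : chr (b (1 : G)) = 1 := by
  show (if sm (Finsupp.single (1 : G) (1 : ZMod 2)) = 0 then (1 : ℚ) else -1) = 1
  have : sm (Finsupp.single (1 : G) (1 : ZMod 2)) = 0 := by simp [sm]
  rw [if_pos this]

theorem chr_b (x : G) (hx : x ≠ 1) : chr (b x) = -1 := by
  show (if sm (Finsupp.single x (1 : ZMod 2)) = 0 then (1 : ℚ) else -1) = -1
  have : sm (Finsupp.single x (1 : ZMod 2)) = 1 := by simp [sm, hx]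
  rw [this, if_neg (by decide)]

/-- the involutions in the group algebra of the base group -/
noncomputable def B (x : G) : MonoidAlgebra ℚ (NN G) := single (b x) 1

omit [Group G] in
theorem B_sq (x : G) : B x * B x = 1 := by
  rw [B, single_mul_single, b_sq, mul_one]
  exact MonoidAlgebra.one_def.symm

/-- one half -/
noncomputable def hf : MonoidAlgebra ℚ (NN G) := algebraMap ℚ _ (1 / 2)

omit [Group G] in
theorem hf_eq : (2 : MonoidAlgebra ℚ (NN G)) * hf = 1 := by
  rw [hf, ← map_ofNat (algebraMap ℚ (MonoidAlgebra ℚ (NN G))) 2, ← map_mul,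
    show (2 : ℚ) * (1 / 2) = 1 by norm_num, map_one]

/-- the idempotent in the group algebra of the base group -/
noncomputable def E0 (S : Finset G) : MonoidAlgebra ℚ (NN G) :=
  (hf * (1 + B 1)) * ∏ g ∈ S, (hf * (1 - B g))

theorem E0_idem (S : Finset G) : E0 S * E0 S = E0 S := by
  have h1 : (hf * (1 + B (1 : G))) * (hf * (1 + B 1)) = hf * (1 + B 1) := by
    linear_combination (hf ^ 2) * B_sq (1 : G) + (hf * (1 + B 1)) * hf_eq (G := G)
  have h2 : ∀ g : G, (hf * (1 - B g)) * (hf * (1 - B g)) = hf * (1 - B g) := by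
    intro g
    linear_combination (hf ^ 2) * B_sq g + (hf * (1 - B g)) * hf_eq (G := G)
  unfold E0
  calc _ = ((hf * (1 + B 1)) * (hf * (1 + B 1))) *
        ((∏ g ∈ S, (hf * (1 - B g))) * ∏ g ∈ S, (hf * (1 - B g))) := by ring
    _ = _ := by
        rw [h1, ← Finset.prod_mul_distrib]
        congr 1
        exact Finset.prod_congr rfl fun g _ => h2 g

theorem B_one_E0 (S : Finset G) : B 1 * E0 S = E0 S := by
  unfold E0
  linear_combination (hf * ∏ g ∈ S, (hf * (1 - B g))) * B_sq (1 : G)

theorem E0_B (S : Finset G) (g : G) (hg : g ∈ S) : E0 S * B g = -E0 S := by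
  classical
  unfold E0
  rw [← Finset.mul_prod_erase S _ hg]
  linear_combination (-((hf * (1 + B 1)) * (hf * ∏ x ∈ S.erase g, (hf * (1 - B x))))) * B_sq g

theorem E0_ne (S : Finset G) (hS : (1 : G) ∉ S) : E0 S ≠ 0 := by
  intro h
  let χ : MonoidAlgebra ℚ (NN G) →ₐ[ℚ] ℚ := MonoidAlgebra.lift ℚ ℚ (NN G) chr
  have hB : ∀ x : G, χ (B x) = chr (b x) := by
    intro x
    simp [χ, B]
  have hh : χ hf = 1 / 2 := by
    simp [χ, hf]
  have h1 : χ (E0 S) = 1 := by
    unfold E0
    rw [map_mul, map_prod, map_mul, map_add, map_one, hB, chr_b_one, hh]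
    rw [Finset.prod_congr rfl (g := fun _ => (1 : ℚ))]
    · norm_num
    · intro g hg
      rw [map_mul, map_sub, map_one, hB, chr_b g (fun h => hS (h ▸ hg)), hh]
      norm_num
  rw [h, map_zero] at h1
  norm_num at h1

/-! ### The whole group -/

/-- the group algebra of the base group in the group algebra of the wreath product -/
noncomputable def J : MonoidAlgebra ℚ (NN G) →+* MonoidAlgebra ℚ (HH G) :=
  MonoidAlgebra.mapDomainRingHom ℚ (SemidirectProduct.inl : NN G →* HH G)

/-- the group algebra of `G` in the group algebra of the wreath product -/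
noncomputable def R : MonoidAlgebra ℚ G →+* MonoidAlgebra ℚ (HH G) :=
  MonoidAlgebra.mapDomainRingHom ℚ (SemidirectProduct.inr : G →* HH G)

theorem J_inj : Function.Injective (J : MonoidAlgebra ℚ (NN G) →+* MonoidAlgebra ℚ (HH G)) :=
  MonoidAlgebra.mapDomain_injective SemidirectProduct.inl_injective

theorem kill (S : Finset G) (g : G) (hg : g ∈ S) :
    J (E0 S) * single (SemidirectProduct.inr g : HH G) 1 * J (E0 S) = 0 := by
  have h1 : single (SemidirectProduct.inr g : HH G) (1 : ℚ) * J (B 1) =
      J (B g) * single (SemidirectProduct.inr g : HH G) 1 := by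
    have e1 : J (B (1 : G)) = single (SemidirectProduct.inl (b 1) : HH G) 1 := by
      simp [J, B]
    have e2 : J (B g) = single (SemidirectProduct.inl (b g) : HH G) 1 := by
      simp [J, B]
    rw [e1, e2, single_mul_single, single_mul_single, inr_b]
  have h2 : J (E0 S) * single (SemidirectProduct.inr g : HH G) 1 * J (E0 S) =
      -(J (E0 S) * single (SemidirectProduct.inr g : HH G) 1 * J (E0 S)) := by
    calc J (E0 S) * single (SemidirectProduct.inr g : HH G) 1 * J (E0 S)
        = J (E0 S) * single (SemidirectProduct.inr g : HH G) 1 * (J (B 1) * J (E0 S)) := by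
          rw [← map_mul, B_one_E0]
      _ = J (E0 S) * (single (SemidirectProduct.inr g : HH G) 1 * J (B 1)) * J (E0 S) := by
          simp only [mul_assoc]
      _ = (J (E0 S) * J (B g)) * single (SemidirectProduct.inr g : HH G) 1 * J (E0 S) := by
          rw [h1]
          simp only [mul_assoc]
      _ = -(J (E0 S) * single (SemidirectProduct.inr g : HH G) 1 * J (E0 S)) := by
          rw [← map_mul, E0_B S g hg, map_neg, neg_mul, neg_mul]
  have h3 : (2 : ℚ) • (J (E0 S) * single (SemidirectProduct.inr g : HH G) 1 * J (E0 S)) = 0 := by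
    rw [two_smul]
    nth_rewrite 2 [h2]
    exact add_neg_cancel _
  exact (smul_eq_zero.1 h3).resolve_left (by norm_num)

theorem sandwich (α : MonoidAlgebra ℚ G) :
    ∃ S : Finset G, (1 : G) ∉ S ∧ J (E0 S) * R α * J (E0 S) = α.coeff 1 • J (E0 S) := by
  classical
  refine ⟨α.coeff.support.erase 1, Finset.notMem_erase _ _, ?_⟩
  set S := α.coeff.support.erase 1 with hS
  have h1 : R α = ∑ g ∈ α.coeff.support,
      (α.coeff g) • single (SemidirectProduct.inr g : HH G) (1 : ℚ) := by
    conv_lhs => rw [← MonoidAlgebra.sum_coeff_single α]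
    rw [Finsupp.sum, map_sum]
    refine Finset.sum_congr rfl fun g _ => ?_
    simp [R]
  rw [h1, Finset.mul_sum, Finset.sum_mul]
  have h2 : ∀ g ∈ α.coeff.support, J (E0 S) * ((α.coeff g) •
      single (SemidirectProduct.inr g : HH G) (1 : ℚ)) * J (E0 S) =
      if g = 1 then α.coeff 1 • J (E0 S) else 0 := by
    intro g hg
    rw [mul_smul_comm, smul_mul_assoc]
    by_cases h : g = 1
    · subst h
      have h5 : (single (SemidirectProduct.inr 1 : HH G) (1 : ℚ)) = 1 := by
        rw [map_one, MonoidAlgebra.one_def]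
      rw [if_pos rfl, h5, mul_one, ← map_mul, E0_idem]
    · rw [if_neg h, kill S g (Finset.mem_erase.2 ⟨h, hg⟩), smul_zero]
  rw [Finset.sum_congr rfl h2, Finset.sum_ite_eq' α.coeff.support (1 : G)]
  split_ifs with h
  · rfl
  · rw [Finsupp.notMem_support_iff.1 h, zero_smul]

end Wreath

/-- Each nonzero element of the rational group algebra of `G` generates in the group algebra of a
countable overgroup an ideal which contains a nonzero idempotent. -/
theorem main (G : Type) [Group G] (α : MonoidAlgebra ℚ G) (hα : α ≠ 0) :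
    ∃ c d e : MonoidAlgebra ℚ (HH G), c * R α * d = e ∧ e * e = e ∧ e ≠ 0 := by
  classical
  obtain ⟨g, hg⟩ : ∃ g, α.coeff g ≠ 0 := by
    by_contra h
    push Not at h
    apply hα
    ext g
    exact h g
  obtain ⟨S, hS, hE⟩ := sandwich (α * single g⁻¹ 1)
  have h1 : (α * single g⁻¹ 1).coeff 1 = α.coeff g := by
    simp
  rw [h1] at hE
  refine ⟨(α.coeff g)⁻¹ • J (E0 S), R (single g⁻¹ 1) * J (E0 S), J (E0 S), ?_, ?_, ?_⟩
  · rw [smul_mul_assoc, smul_mul_assoc]
    have h2 : J (E0 S) * R α * (R (single g⁻¹ 1) * J (E0 S)) =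
        J (E0 S) * R (α * single g⁻¹ 1) * J (E0 S) := by
      rw [map_mul]
      simp only [mul_assoc]
    rw [h2, hE, smul_smul, inv_mul_cancel₀ hg, one_smul]
  · rw [← map_mul, E0_idem]
  · intro h
    rw [← map_zero J] at h
    exact E0_ne S hS (J_inj h)

instance countable_HH (G : Type) [Group G] [Countable G] : Countable (HH G) := by
  have : Countable (NN G) := inferInstanceAs (Countable (G →₀ ZMod 2))
  exact (SemidirectProduct.equivProd (φ := act G)).injective.countable

end Pool.Agent.H629.GA
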